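import Mathlib

namespace Pool.Agent.Results.MP_eadfc1_pr.Window

open Finset

/-- `P_x(τ(y) = t)`: the total weight of the paths `ω 0 = x, ω 1, …, ω t = y` that avoid `y`
before time `t`, a path weighing the product of its transition probabilities. -/
noncomputable def hitProb {n : ℕ} (P : Fin n → Fin n → ℝ) (x y : Fin n) (t : ℕ) : ℝ :=
  ∑ ω : Fin (t + 1) → Fin n,
    if ω 0 = x ∧ ω (Fin.last t) = y ∧ ∀ i : Fin t, ω i.castSucc ≠ y
    then ∏ i : Fin t, P (ω i.castSucc) (ω i.succ) else 0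

lemma hit_zero {n : ℕ} (P : Fin n → Fin n → ℝ) (x y : Fin n) :
    hitProb P x y 0 = if x = y then 1 else 0 := by
  unfold hitProb
  rw [Finset.sum_eq_single (fun _ => x)]
  · simp
  · intro b _ hb
    rw [if_neg]
    rintro ⟨h, -, -⟩
    apply hb
    funext i
    rw [Fin.fin_one_eq_zero i]; exact h
  · simp

lemma hit_succ {n : ℕ} (P : Fin n → Fin n → ℝ) (x y : Fin n) (t : ℕ) :
    hitProb P x y (t + 1) = if x = y then 0 else ∑ z, P x z * hitProb P z y t := by
  unfold hitProb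
  rw [← (Fin.consEquiv (fun _ : Fin (t + 2) => Fin n)).sum_comp, Fintype.sum_prod_type]
  rw [Finset.sum_eq_single x]
  · split_ifs with h
    · apply Finset.sum_eq_zero
      intro ω _
      rw [if_neg]
      rintro ⟨-, -, h3⟩
      exact h3 0 (by simpa [Fin.consEquiv] using h)
    · simp_rw [Finset.mul_sum]
      rw [Finset.sum_comm]
      apply Finset.sum_congr rfl
      intro ω _
      rw [Finset.sum_eq_single (ω 0)]
      · have e1 : (Fin.consEquiv (fun _ : Fin (t + 2) => Fin n)) (x, ω) = Fin.cons x ω := rfl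
        rw [e1, Fin.prod_univ_succ]
        have e2 : ∀ i : Fin t, (Fin.cons x ω : Fin (t + 2) → Fin n) i.succ.castSucc
            = ω i.castSucc := fun i => by rw [← Fin.succ_castSucc, Fin.cons_succ]
        have e3 : (Fin.cons x ω : Fin (t + 2) → Fin n) (Fin.last (t + 1)) = ω (Fin.last t) := by
          rw [← Fin.succ_last, Fin.cons_succ]
        by_cases hc : ω (Fin.last t) = y ∧ ∀ i : Fin t, ω i.castSucc ≠ y
        · rw [if_pos (show ω 0 = ω 0 ∧ _ from ⟨rfl, hc⟩), if_pos]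
          · simp only [e2, Fin.cons_succ, Fin.castSucc_zero, Fin.cons_zero]
          · refine ⟨rfl, e3.trans hc.1, Fin.forall_fin_succ.mpr ⟨h, fun i => ?_⟩⟩
            rw [e2]; exact hc.2 i
        · rw [if_neg (show ¬ (ω 0 = ω 0 ∧ _) from fun hh => hc hh.2), if_neg, mul_zero]
          rintro ⟨-, h2, h3⟩
          exact hc ⟨e3.symm.trans h2, fun i => by rw [← e2]; exact h3 i.succ⟩
      · intro b _ hb
        rw [if_neg (fun hh => hb hh.1.symm), mul_zero]
      · simp
  · intro b _ hb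
    apply Finset.sum_eq_zero
    intro ω _
    rw [if_neg]
    rintro ⟨h1, -⟩
    exact hb (by simpa [Fin.consEquiv] using h1)
  · simp

noncomputable def Pm (k : ℕ) (p : ℝ) (i j : Fin (k + 1)) : ℝ :=
  (if j.val = i.val - 1 then p else 0) + (if j = i then 1 - p else 0)

/-- probability of at least `j` successes in `t` trials -/
noncomputable def F (p : ℝ) : ℕ → ℕ → ℝ
  | _, 0 => 1
  | 0, _ + 1 => 0
  | t + 1, j + 1 => p * F p t j + (1 - p) * F p t (j + 1)

lemma sum_Pm (k : ℕ) (p : ℝ) (i : Fin (k + 1)) (g : Fin (k + 1) → ℝ) :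
    ∑ j, Pm k p i j * g j = p * g ⟨i.val - 1, by omega⟩ + (1 - p) * g i := by
  unfold Pm
  simp_rw [add_mul]
  rw [Finset.sum_add_distrib]
  congr 1
  · rw [Finset.sum_eq_single (⟨i.val - 1, by omega⟩ : Fin (k + 1))]
    · simp
    · intro b _ hb
      rw [if_neg (fun h => hb (Fin.ext h)), zero_mul]
    · simp
  · simp

lemma cum (k : ℕ) (p : ℝ) (t : ℕ) : ∀ i : Fin (k + 1),
    ∑ s ∈ range (t + 1), hitProb (Pm k p) i 0 s = F p t i.val := by
  induction t with
  | zero =>
    intro i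
    rw [Finset.sum_range_one, hit_zero]
    obtain ⟨i, hi⟩ := i
    cases i with
    | zero => simp [F]
    | succ i => simp [F, Fin.ext_iff]
  | succ t ih =>
    intro i
    rw [Finset.sum_range_succ', hit_zero]
    simp_rw [hit_succ]
    obtain ⟨i, hi⟩ := i
    cases i with
    | zero => simp [F]
    | succ i =>
      have hne : (⟨i + 1, hi⟩ : Fin (k + 1)) ≠ 0 := by simp [Fin.ext_iff]
      simp only [if_neg hne, add_zero]
      rw [Finset.sum_comm]
      simp_rw [← Finset.mul_sum, ih]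
      rw [sum_Pm k p _ (fun j => F p t j.val)]
      simp [F]

noncomputable def Q (p : ℝ) (t : ℕ) (j : ℝ) : ℝ := (t * p - j) ^ 2 + t * p * (1 - p)

lemma Q_succ (p : ℝ) (t : ℕ) (j : ℝ) : Q p (t + 1) j = p * Q p t (j - 1) + (1 - p) * Q p t j := by
  unfold Q; push_cast; ring

lemma Q_nonneg {p : ℝ} (h0 : 0 ≤ p) (h1 : p ≤ 1) (t : ℕ) (j : ℝ) : 0 ≤ Q p t j := by
  unfold Q
  have : 0 ≤ 1 - p := by linarith
  positivity

lemma upper {p : ℝ} (h0 : 0 ≤ p) (h1 : p ≤ 1) {d : ℝ} (hd : 0 ≤ d) (t : ℕ) :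
    ∀ j : ℕ, d ^ 2 * F p t j ≤ Q p t (j - d) := by
  have hq : 0 ≤ 1 - p := by linarith
  have base : ∀ t : ℕ, d ^ 2 * F p t 0 ≤ Q p t (((0 : ℕ) : ℝ) - d) := by
    intro t
    have : F p t 0 = 1 := by cases t <;> rfl
    rw [this]
    unfold Q
    have h2 : 0 ≤ (t : ℝ) * p := by positivity
    have h3 : 0 ≤ (t : ℝ) * p * (1 - p) := by positivity
    push_cast
    nlinarith [mul_nonneg h2 hd, sq_nonneg ((t : ℝ) * p)]
  induction t with
  | zero =>
    intro j
    cases j with
    | zero => exact base 0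
    | succ j => simp only [F, mul_zero]; exact Q_nonneg h0 h1 _ _
  | succ t ih =>
    intro j
    cases j with
    | zero => exact base _
    | succ j =>
      rw [Q_succ]
      have a := mul_le_mul_of_nonneg_left (ih j) h0
      have b := mul_le_mul_of_nonneg_left (ih (j + 1)) hq
      have e : ((j + 1 : ℕ) : ℝ) - d - 1 = j - d := by push_cast; ring
      rw [e]
      simp only [F]
      nlinarith

lemma lower {p : ℝ} (h0 : 0 ≤ p) (h1 : p ≤ 1) {d : ℝ} (hd : 0 ≤ d) (t : ℕ) :
    ∀ j : ℕ, d ^ 2 * (1 - F p t j) ≤ Q p t (j - 1 + d) := by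
  have hq : 0 ≤ 1 - p := by linarith
  have base : ∀ t : ℕ, d ^ 2 * (1 - F p t 0) ≤ Q p t (((0 : ℕ) : ℝ) - 1 + d) := by
    intro t
    have : F p t 0 = 1 := by cases t <;> rfl
    rw [this, sub_self, mul_zero]
    exact Q_nonneg h0 h1 _ _
  induction t with
  | zero =>
    intro j
    cases j with
    | zero => exact base 0
    | succ j =>
      simp only [F, Q]
      have : (0 : ℝ) ≤ j := by positivity
      push_cast
      nlinarith [mul_nonneg this hd, sq_nonneg (j : ℝ)]
  | succ t ih =>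
    intro j
    cases j with
    | zero => exact base _
    | succ j =>
      rw [Q_succ]
      have a := mul_le_mul_of_nonneg_left (ih j) h0
      have b := mul_le_mul_of_nonneg_left (ih (j + 1)) hq
      have e : ((j + 1 : ℕ) : ℝ) - 1 + d - 1 = j - 1 + d := by push_cast; ring
      rw [e]
      simp only [F]
      nlinarith

theorem result : ∀ C : ℝ, ∃ (n : ℕ) (P : Fin n → Fin n → ℝ),
    (∀ u v, 0 ≤ P u v) ∧ (∀ u, ∑ v, P u v = 1) ∧ ∃ (x y : Fin n) (t : ℕ), n < t ∧
      C * n / t < ∑ s ∈ Finset.Icc t (t + n), hitProb P x y s := by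
  intro C
  obtain ⟨K, hK⟩ := exists_nat_gt (6 * |C| + 3)
  have hC := abs_nonneg C
  have hK3 : (3 : ℝ) < K := by linarith
  have hK3' : 3 < K := by exact_mod_cast hK3
  have hKp : (0 : ℝ) < K := by linarith
  set p : ℝ := 1 / K with hp
  have h0 : 0 ≤ p := by positivity
  have h1 : p ≤ 1 := by rw [hp, div_le_one hKp]; linarith
  have hpK : (K : ℝ) * p = 1 := by rw [hp]; field_simp
  obtain ⟨M, hM⟩ : ∃ M : ℕ, M + 1 = 2 * K := ⟨2 * K - 1, by omega⟩
  have hMr : (M : ℝ) = 2 * K - 1 := by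
    have : (M : ℝ) + 1 = 2 * K := by exact_mod_cast hM
    linarith
  set k : ℕ := 24 * K ^ 2 with hk
  set s : ℕ := 12 * K ^ 2 * M with hs
  have hkr : (k : ℝ) = 24 * (K : ℝ) ^ 2 := by rw [hk]; push_cast; ring
  have hsr : (s : ℝ) = 12 * (K : ℝ) ^ 2 * (2 * K - 1) := by rw [hs]; push_cast; rw [hMr]
  refine ⟨k + 1, Pm k p, ?_, ?_, Fin.last k, 0, s + 1, ?_, ?_⟩
  · intro u v
    unfold Pm
    apply add_nonneg <;> split_ifs <;> linarith
  · intro u
    have := sum_Pm k p u (fun _ => 1)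
    simpa using this
  · have : (k : ℝ) < s := by rw [hkr, hsr]; nlinarith [sq_pos_of_pos hKp]
    have : k < s := by exact_mod_cast this
    omega
  · have e1 : ∑ r ∈ Finset.Icc (s + 1) (s + 1 + (k + 1)), hitProb (Pm k p) (Fin.last k) 0 r
        = F p (s + 1 + (k + 1)) k - F p s k := by
      have a := cum k p (s + 1 + (k + 1)) (Fin.last k)
      have b := cum k p s (Fin.last k)
      rw [Fin.val_last] at a b
      rw [← a, ← b, ← Finset.sum_Ico_eq_sub _ (by omega)]
      rfl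
    rw [e1]
    have hu := upper h0 h1 (d := 12 * K) (by positivity) s k
    have hl := lower h0 h1 (d := 12 * K + 1 + 2 * p) (by positivity) (s + 1 + (k + 1)) k
    have hsp : (s : ℝ) * p = k - 12 * K := by
      rw [hsr, hkr]
      linear_combination (12 * (K : ℝ) * (2 * K - 1)) * hpK
    have htp : ((s + 1 + (k + 1) : ℕ) : ℝ) * p = k - 1 + (12 * K + 1 + 2 * p) := by
      push_cast
      rw [hsr, hkr]
      linear_combination (12 * (K : ℝ) * (2 * K - 1) + 24 * K) * hpK
    unfold Q at hu hl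
    rw [hsp] at hu
    rw [htp] at hl
    simp only [sub_self] at hu hl
    have hK2 : (0 : ℝ) < (K : ℝ) ^ 2 := by positivity
    have hA : F p s k ≤ 1 / 6 := by
      have : ((k : ℝ) - 12 * K) * (1 - p) ≤ 24 * (K : ℝ) ^ 2 := by
        rw [hkr]
        have : (0 : ℝ) ≤ 24 * (K : ℝ) ^ 2 - 12 * K := by nlinarith
        nlinarith
      by_contra hc
      push Not at hc
      nlinarith
    have hB : 1 - F p (s + 1 + (k + 1)) k ≤ 1 / 3 := by
      have h5 : ((k : ℝ) - 1 + (12 * K + 1 + 2 * p)) * (1 - p) ≤ 48 * (K : ℝ) ^ 2 := by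
        rw [hkr]
        have : (0 : ℝ) ≤ 24 * (K : ℝ) ^ 2 - 1 + (12 * K + 1 + 2 * p) := by nlinarith
        nlinarith
      by_contra hc
      push Not at hc
      have h6 : (12 * (K : ℝ)) ^ 2 ≤ (12 * K + 1 + 2 * p) ^ 2 :=
        pow_le_pow_left₀ (by positivity) (by linarith) 2
      nlinarith
    have hfin : C * ((k + 1 : ℕ) : ℝ) / ((s + 1 : ℕ) : ℝ) < 1 / 2 := by
      rw [div_lt_div_iff₀ (by positivity) (by norm_num)]
      push_cast
      rw [hkr, hsr]
      have h7 : C * (24 * (K : ℝ) ^ 2 + 1) ≤ |C| * (24 * (K : ℝ) ^ 2 + 1) :=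
        mul_le_mul_of_nonneg_right (le_abs_self C) (by positivity)
      have h8 : |C| * (24 * (K : ℝ) ^ 2 + 1) ≤ (K / 6) * (24 * (K : ℝ) ^ 2 + 1) :=
        mul_le_mul_of_nonneg_right (by linarith) (by positivity)
      nlinarith
    linarith

end Pool.Agent.Results.MP_eadfc1_pr.Window
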